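import Pool.Agent.Run7.h204.TyD

/-!
# MP_80f852_al: small integer solutions of unit and addition equations

For every integer tuple `x` of length `n` there is an integer tuple `y` with all `|y i| ≤ 2 ^ (n - 1)` that
satisfies every equation `z i = 1` or `z k = z i + z j` that `x` satisfies.

Proof.  Let `x i0 = 1` (otherwise take `y = 0`).  After homogenising (`z i = z i0` in place of `z i = 1`) all
equations have rows `e_i - e_j` or `e_i + (e_j - e_k)`: sums of two network rows.  Let `W` be a maximal
independent set of `m` such rows, and let `J` be `m` columns, not containing `i0`, for which `D = |det W_J|` is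
maximal.  A determinant of order `m` with rows of this kind is at most `2 ^ m ≤ 2 ^ (n - 1)`.  The integer
solutions with `y i0 = 1` are described by their coordinates outside `J`, which have to satisfy one
equation in the finite group `ℤ^m / W_J ℤ^m` of order `D`; this equation has a solution of `ℓ¹`-norm at most
`D - 1` (shortest words in a group of order `D`).  By Cramer's rule and the maximality of `J` the
coordinates in `J` are then at most `(D - 1) + 2 ^ m / D ≤ 2 ^ (n - 1)`.
-/

set_option autoImplicit false

namespace Pool.Agent.Results.MP_80f852_al.IntegerPowerBound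

/-- **Q1, affirmative.** -/
theorem result (n : ℕ) (_hn : 1 ≤ n) (x : Fin n → ℤ) : ∃ y : Fin n → ℤ,
    (∀ i, |y i| ≤ 2 ^ (n - 1)) ∧ (∀ i, x i = 1 → y i = 1) ∧
      ∀ i j k, x k = x i + x j → y k = y i + y j := by
  obtain ⟨y, h1, h2, h3⟩ := Run7.h204.Tysz.int_sol x
  exact ⟨y, h1, h2, fun i j k h => (h3 i j k h.symm).symm⟩

end Pool.Agent.Results.MP_80f852_al.IntegerPowerBound
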